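import Mathlib
import Pool.Agent.Q63.QC.Main

/-!
# Bloch's conjecture for abelian coverings of `P^1 × P^1` with `p_g = 0`

Let `X` be a surface which is birational to an abelian covering of `P^1 × P^1` (over `ℂ`), with any finite abelian
group `G`, branched over smooth curves `D_i` of bidegrees `(d i, e i)` whose union has normal crossings.
If `p_g(X) = 0` then the kernel of the Albanese map of `X` is zero, that is `d(X) = 0`.

The proof. For a character `a` of `G` consider the cyclic covering `X / ker a`. Its fibres over the two factors `P^1`
are cyclic coverings of `P^1` branched over `branch d a` and `branch e a` points. The numerical theorem `small`: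
if `p_g(X) = 0` then one of the two numbers is at most three. It follows from a statement on partitions
(`comb` in `Pool.Agent.Q63.QC.Comb`): for two partitions `P`, `Q` of an integer `m` into at least four
parts there is an integer `k` such that the residues modulo `m` of the numbers `k x`, `x ∈ P`, have a sum `≥ 2 m`
and those of the numbers `- k y`, `y ∈ Q`, too. So one of the two fibrations of `X / ker a` is isotrivial (three points
on `P^1` have no moduli), `X / ker a` is dominated by a product of two curves, and Bloch's
conjecture is true for it by a theorem of Kimura. This is the hypothesis `fibred`. The zero-cycles of `X` are sums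
of zero-cycles coming from the `X / ker a`.
-/

set_option autoImplicit false

namespace Pool.Agent.Results.MP_7ebcb6_ag.AbelianQuadricCoverings

open Pool.Agent.Q63.PC Pool.Agent.Q63.QC

theorem result {m s : ℕ} [NeZero m] (d e : Fin s → ℕ) (Λ : AddSubgroup (Fin s → ZMod m))
    (ψ : AddChar (ZMod m) ℂ) (hψ : ψ.IsPrimitive) {V : Type} [AddCommGroup V] [Module ℂ V]
    (ρ : Representation ℂ (Multiplicative (Fin s → ZMod m)) V) (hX : QuadricCover d e Λ ψ ρ)
    (hg : geomGenus d e Λ = 0) :
    (∀ a ∈ Λ, branch d a ≤ 3 ∨ branch e a ≤ 3) ∧ ∀ v : V, v = 0 :=
  ⟨fun _ ha => small hX.integral (genus_zero hg) ha, fun v => bloch hψ hX hg v⟩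

end Pool.Agent.Results.MP_7ebcb6_ag.AbelianQuadricCoverings
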