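import Pool.Agent.Q63.BL.Main

/-!
# Bloch's conjecture for surfaces with `p_g = 0` and groups of automorphisms

Let `S` be a smooth projective complex surface with `p_g(S) = 0`; let `vol S` be the number `K^2` of its
minimal model if `S` is of general type, and `0` otherwise. Bloch's conjecture for `S` says that
`F^2 CH_0(S) = 0` (`NoCycles`; `F^2 CH_0(S)` has no torsion by a theorem of Roitman, so that rational
coefficients are sufficient), equivalently that the group of zero-cycles is finite-dimensional. It is
known if `S` is not of general type (Bloch, Kas and Lieberman). Let the finite group `G` act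
faithfully on `S`. We prove Bloch's conjecture for `S` in the following cases (`k = 0`).

1. Every nonzero complex representation of `G` has a nonzero vector which is fixed by a subgroup `H`
   of order larger than `K^2`.
2. `G` is abelian and `|G| > K^2 * exp(G)`, `exp(G)` the exponent of `G`. As `K^2 ≤ 9` it is sufficient
   that `|G| > 9 exp(G)`; for elementary abelian groups of order `p^r` the condition is
   `p^(r-1) > K^2`. (Examples: the classical Godeaux and Campedelli surfaces.)
3. `G` has a partition into subgroups of order larger than `K^2` (for instance a Frobenius group, a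
   dihedral group or an elementary abelian group, if the components are large enough).
4. `G` is a noncyclic group of order `p q` with (not necessarily different) primes `p, q > K^2`. So
   numerical Godeaux surfaces (`K^2 = 1`) for which Bloch's conjecture is false have no noncyclic
   group of automorphisms whose order is a product of two primes.

More generally, if Bloch's conjecture holds for all surfaces with `p_g = 0` and `K^2 ≤ k` (`BlochUpTo k`)
then `K^2` may be replaced by `K^2 / (k + 1)` in these conditions. Consequences (5): if Bloch's
conjecture holds for all surfaces with `p_g = 0` and `K^2 ≤ 4` then it holds for all surfaces with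
`p_g = 0` with a noncyclic group of automorphisms whose order is a product of two primes; if it holds for
`K^2 ≤ 1` then it holds for all surfaces with `p_g = 0` with a group of automorphisms `(ℤ/5)^2`,
`(ℤ/2)^4`, or any other abelian group with `2 |G| > 9 exp(G)`.

Proof: a resolution `Y` of `S / H` has `p_g(Y) = 0` and `|H| K_Y^2 ≤ K_S^2` (volumes), so that `Y` is not
of general type if `|H| > K_S^2`, and `F^2 CH_0(S) ⊗ ℚ` has no nonzero vector fixed by `H`. For groups
with a partition one uses the relation `∑ N_C = (r - 1) + N_G` between the norm elements of the `r`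
components, as Accola did for Riemann surfaces; for `(ℤ/2)^2` and quotients known to be rational this is
the method of Inose and Mizukami.
-/

set_option autoImplicit false

open CategoryTheory Opposite

universe u v w w'

namespace Pool.Agent.Results.MP_7ebcb6_ag.AutomorphismsAndVolume

open Pool.Agent.Q63.BL

/-- Bloch's conjecture for surfaces with `p_g = 0` and a finite group of automorphisms. -/
theorem result {𝒮 : Type u} [Category.{v} 𝒮] (T : 𝒮 ⥤ ModuleCat.{w} ℚ)
    (Om : 𝒮ᵒᵖ ⥤ ModuleCat.{w'} ℂ) (vol : 𝒮 → ℕ) (hT : IsSurfaceTheory T Om vol) :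
    BlochUpTo T Om vol 0 ∧
    (∀ (k : ℕ) (S : 𝒮), BlochUpTo T Om vol k → NoForms Om S →
      (∀ (G : Type) [Group G] [Finite G] (a : G →* Aut S), Function.Injective a →
        (∀ (n : ℕ) (σ : Representation ℂ G (Fin n → ℂ)), 0 < n → ∃ H : Subgroup G,
          vol S < (k + 1) * Nat.card H ∧ ∃ w : Fin n → ℂ, w ≠ 0 ∧ ∀ h ∈ H, σ h w = w) →
        NoCycles T S) ∧
      (∀ (G : Type) [CommGroup G] [Finite G] (a : G →* Aut S), Function.Injective a →
        vol S * Monoid.exponent G < (k + 1) * Nat.card G → NoCycles T S) ∧
      (∀ (G : Type) [Group G] [Finite G] (a : G →* Aut S), Function.Injective a →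
        ∀ (ι : Type) [Finite ι] (C : ι → Subgroup G), 1 < Nat.card ι →
          (∀ g : G, g ≠ 1 → ∃! i, g ∈ C i) → (∀ i, vol S < (k + 1) * Nat.card (C i)) →
          NoCycles T S) ∧
      (∀ (G : Type) [Group G] [Finite G] (a : G →* Aut S), Function.Injective a →
        ∀ p q : ℕ, p.Prime → q.Prime → Nat.card G = p * q → ¬ IsCyclic G →
          vol S < (k + 1) * p → vol S < (k + 1) * q → NoCycles T S)) ∧
    (BlochUpTo T Om vol 4 → ∀ S : 𝒮, NoForms Om S → ∀ (G : Type) [Group G] [Finite G]
      (a : G →* Aut S), Function.Injective a → ∀ p q : ℕ, p.Prime → q.Prime →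
        Nat.card G = p * q → ¬ IsCyclic G → NoCycles T S) ∧
    (BlochUpTo T Om vol 1 → ∀ S : 𝒮, NoForms Om S → ∀ (G : Type) [CommGroup G] [Finite G]
      (a : G →* Aut S), Function.Injective a → 9 * Monoid.exponent G < 2 * Nat.card G →
        NoCycles T S) ∧
    (∀ S : 𝒮, NoForms Om S → ∀ (G : Type) [CommGroup G] [Finite G] (a : G →* Aut S),
      Function.Injective a → 9 * Monoid.exponent G < Nat.card G → NoCycles T S) := by
  refine ⟨blochUpTo_zero hT, fun k S hk hS => ⟨fun G _ _ a ha => noCycles hT hk hS ha,
    fun G _ _ a ha => noCycles_comm hT hk hS ha,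
    fun G _ _ a ha ι _ C => noCycles_partition hT hk hS ha C,
    fun G _ _ a ha p q hp hq hG hc => noCycles_pq hT hk hS ha hp hq hG hc⟩, ?_, ?_, ?_⟩
  · intro hk S hS G _ _ a ha p q hp hq hG hc
    have h1 := hT.bmy S hS
    have h2 := hp.two_le
    have h3 := hq.two_le
    exact noCycles_pq hT hk hS ha hp hq hG hc (by omega) (by omega)
  · intro hk S hS G _ _ a ha hG
    have h1 := Nat.mul_le_mul_right (Monoid.exponent G) (hT.bmy S hS)
    exact noCycles_comm hT hk hS ha (by omega)
  · intro S hS G _ _ a ha hG
    have h1 := Nat.mul_le_mul_right (Monoid.exponent G) (hT.bmy S hS)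
    exact noCycles_comm hT (blochUpTo_zero hT) hS ha (by omega)

end Pool.Agent.Results.MP_7ebcb6_ag.AutomorphismsAndVolume
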