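import Mathlib
import Pool.Agent.Q63.HC.Main

/-!
# Bloch's conjecture for abelian coverings of the Hirzebruch surfaces with `p_g = 0`

Let `X` be a surface which is birational to an abelian covering of the Hirzebruch surface `F_e`, `e ≥ 1`, over `ℂ`, with
any finite abelian group `G`, branched over any smooth curves (one of them may be the negative section `Δ`) whose
union has normal crossings. If `p_g(X) = 0` then the kernel of the Albanese map of `X` is zero, that is
`d(X) = 0`.

`p_g(X) = 0` means that no character `a` of `G` has a nonzero section of `K + L_a` (`HasForms`). The numerical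
theorem `classify`: then each cyclic covering `X / ker a` has fibres over `P^1` which are branched over at most three
points (so that `X / ker a` is dominated by a product of curves), or `e = 1` and it is a covering of
`P^2` branched over a quartic curve (possibly through the blown up point), or `e = 2` and it is one of two families
of rational surfaces which are coverings of the quadric cone. Bloch's conjecture is known for all these surfaces
(for `P^2` see the hand-in `AbelianPlaneCoverings` for `MP_762f97_ag`). Together with
`AbelianQuadricCoverings` and `AbelianPlaneCoverings` this settles the coverings of all minimal rational surfaces.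
-/

set_option autoImplicit false

namespace Pool.Agent.Results.MP_7ebcb6_ag.HirzebruchCoverings

open Pool.Agent.Q63.PC Pool.Agent.Q63.HC

theorem result {m s : ℕ} [NeZero m] (e : ℕ) (d : Fin (s + 1) → ℕ) (t : Fin (s + 1) → ℤ)
    (hB : BranchCurves e d t) (Λ : AddSubgroup (Fin (s + 1) → ZMod m)) (ψ : AddChar (ZMod m) ℂ)
    (hψ : ψ.IsPrimitive) {V : Type} [AddCommGroup V] [Module ℂ V]
    (ρ : Representation ℂ (Multiplicative (Fin (s + 1) → ZMod m)) V)
    (hX : HirzebruchCover e d t Λ ψ ρ) (hg : ∀ a ∈ Λ, ¬ HasForms e d t a) :
    (∀ a ∈ Λ, branch d a ≤ 4) ∧ (3 ≤ e → ∀ a ∈ Λ, branch d a ≤ 3) ∧ ∀ v : V, v = 0 := by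
  refine ⟨fun a ha => ?_, fun he a ha => ?_, fun v => bloch hB hψ hX hg v⟩
  · have h1 := (step hB hX.integral hg ha).1
    have h2 := (step hB hX.integral hg (Λ.neg_mem ha)).1
    have h3 := num_add_neg (d := d) a
    have h4 : branch d a * m ≤ 4 * m := by omega
    exact Nat.le_of_mul_le_mul_right h4 (Nat.pos_of_ne_zero (NeZero.ne m))
  · rcases classify hB hX.integral hg ha with h | ⟨h, -⟩ | ⟨h, -⟩ | ⟨h, -⟩
    · exact h
    · omega
    · omega
    · omega

end Pool.Agent.Results.MP_7ebcb6_ag.HirzebruchCoverings
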