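import Mathlib
import Pool.Agent.Q63.LA.Main

/-!
# Bloch's conjecture for `(ℤ/2)^k`-coverings of the plane branched over lines in arbitrary position

Let `X` be a smooth projective complex surface with `p_g = 0` which is birational to a Galois covering of the plane with
group `(ℤ/2)^k` branched over lines. There is no condition on `k`, on the number of the lines and on their position. Then
the Albanese kernel of `X` is zero. Examples are the Burniat surfaces and the Campedelli surfaces.

`X / ker a`, for a character `a`, is a double plane branched over `w` of the lines; it has `p_g = 0`. We show that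
then a point `P` is on at least `w - 4` of the `w` lines; so the lines through `P` give a pencil of rational or elliptic
curves on the double plane, it is not of general type, and the theorem of Bloch, Kas and Lieberman applies.

The proof of the existence of `P`: let `w = 2 h`. If all multiplicities are at most `w - 5` then the adjoint curves of
degree `h - 3` need at least `(h - 1)(h - 2)/2` conditions, and a point of multiplicity `2 r` or `2 r + 1` gives
`r (r - 1)/2` of them. It uses at least `2 r ^ 2 + r - 4` of the number `w (w - 3) / 2` which is left by the inequality of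
Hirzebruch for the numbers of the points of given multiplicity. The quotient of these numbers decreases in `r`, and for
`r = h - 3` we have `2 (2 r ^ 2 + r - 4) / (r (r - 1)) > 2 h (2 h - 3) / ((h - 1) (h - 2))`, a contradiction.
-/

set_option autoImplicit false

namespace Pool.Agent.Results.MP_7ebcb6_ag.LineArrangements

open Pool.Agent.Q63.LA

theorem result {s : ℕ} (v : Fin s → Fin 3 → ℂ) (Λ : AddSubgroup (Fin s → ZMod 2))
    (pg : (Fin s → ZMod 2) → ℕ) (ψ : AddChar (ZMod 2) ℚ) (hψ : ψ.IsPrimitive) {V : Type}
    [AddCommGroup V] [Module ℚ V] (ρ : Representation ℚ (Multiplicative (Fin s → ZMod 2)) V)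
    (hX : LineArrangementCover v Λ pg ψ ρ) (hpg : ∀ a ∈ Λ, pg a = 0) :
    (∀ a ∈ Λ, ∃ P : Plane, weight a ≤ mult v a P + 4) ∧ ∀ u : V, u = 0 := by
  refine ⟨fun a ha => exists_point hX ha (hpg a ha), fun u => ?_⟩
  have h := group_ring hψ hX (Pi.single 0 1) (fun a ha h => absurd (hpg a ha) h) u
  rw [Finset.sum_eq_single 0] at h
  · rw [Pi.single_eq_same, one_smul] at h
    have h1 : Multiplicative.ofAdd (0 : Fin s → ZMod 2) = 1 := rfl
    rw [h1, map_one] at h
    exact h
  · intro g _ hg
    rw [Pi.single_eq_of_ne hg, zero_smul]
  · intro h0
    exact absurd (Finset.mem_univ _) h0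

end Pool.Agent.Results.MP_7ebcb6_ag.LineArrangements
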